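import Pool.Agent.Lib.MP_bc94b4_co.Up.Core

/-! Normalisation of an arbitrary strictly antipodal set. -/

open Finset Module

namespace Pool.Agent.Bc94b4.Up

theorem normalise {V : Type*} [AddCommGroup V] [Module ℝ V] [Module.Finite ℝ V] (S : Finset V)
    {x₀ : V} (h₀ : x₀ ∈ S) : ∃ k ≤ finrank ℝ V, ∃ f : V → Fin k → ℝ,
      (∀ x ∈ S, ∀ i, |f x i| ≤ 3) ∧ (∀ i, f x₀ i = -(1 / (k + 1))) ∧
      (∀ j, ∃ x ∈ S, f x = Pi.single j 1 + f x₀) ∧
      ∀ u : V →ₗ[ℝ] ℝ, ∃ (a : Fin k → ℝ) (c : ℝ), ∀ x ∈ S, u x = a ⬝ᵥ f x + c := by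
  classical
  set A : Set V := (fun x => x - x₀) '' S with hA
  set W := Submodule.span ℝ A with hW
  have hfin : (((↑) : W → V) ⁻¹' A).Finite :=
    ((S.finite_toSet.image _).preimage Subtype.val_injective.injOn)
  obtain ⟨k, hk⟩ : ∃ k, finrank ℝ W = k := ⟨_, rfl⟩
  set e := finBasisOfFinrankEq ℝ W hk with he
  obtain ⟨M, hM⟩ := (hfin.image fun w => ‖e.equivFun w‖).bddAbove
  obtain ⟨B, hB, hB2⟩ := spanner e _ Submodule.span_span_coe_preimage (M := M)
    fun w hw i => (norm_le_pi_norm (e.equivFun w) i).trans (hM ⟨w, hw, rfl⟩)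
  have hm : ∀ x ∈ S, x - x₀ ∈ W := fun x hx => Submodule.subset_span ⟨x, hx, rfl⟩
  have hk1 : (0 : ℝ) < 1 / (k + 1) := by positivity
  have hk2 : (1 : ℝ) / (k + 1) ≤ 1 := (div_le_one (by positivity)).2 (by simp)
  refine ⟨k, hk ▸ W.finrank_le, fun x i => (if h : x - x₀ ∈ W then B.repr ⟨_, h⟩ i else 0) - 1 / (k + 1),
    fun x hx i => ?_, fun i => ?_, fun j => ?_, fun u => ?_⟩
  · have := abs_le.1 (hB2 ⟨_, hm x hx⟩ ⟨x, hx, rfl⟩ i)
    beta_reduce
    rw [dif_pos (hm x hx), abs_le]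
    constructor <;> linarith [this.1, this.2]
  · beta_reduce
    rw [dif_pos (hm x₀ h₀), show (⟨x₀ - x₀, hm x₀ h₀⟩ : W) = 0 from Subtype.ext (sub_self _)]
    simp
  · obtain ⟨x, hx, e⟩ := hB j
    refine ⟨x, hx, funext fun i => ?_⟩
    rw [Pi.add_apply]
    beta_reduce
    rw [dif_pos (hm x hx), dif_pos (hm x₀ h₀),
      show (⟨x₀ - x₀, hm x₀ h₀⟩ : W) = 0 from Subtype.ext (sub_self _),
      show (⟨x - x₀, hm x hx⟩ : W) = B j from Subtype.ext e]
    simp [Finsupp.single_apply, Pi.single_apply, eq_comm, sub_eq_add_neg]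
  · refine ⟨fun i => u (B i), u x₀ + ∑ i, u (B i) * (1 / (k + 1)), fun x hx => ?_⟩
    have e := congrArg (fun w : W => u w) (B.sum_repr ⟨_, hm x hx⟩)
    simp only [Submodule.coe_sum, Submodule.coe_smul, map_sum, map_smul, map_sub, smul_eq_mul] at e
    simp only [dotProduct, dif_pos (hm x hx), sub_mul, sum_sub_distrib, mul_comm (u _)]
    linarith

theorem upper {V : Type*} [AddCommGroup V] [Module ℝ V] [Module.Finite ℝ V] {d : ℕ}
    (hV : finrank ℝ V = d) (hd : 2 ≤ d) (S : Finset V)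
    (hA : ∀ x ∈ S, ∀ y ∈ S, x ≠ y → ∃ u : V →ₗ[ℝ] ℝ, ∀ z ∈ S,
      (z ≠ x → u z < u x) ∧ (z ≠ y → u y < u z)) :
    (S.card : ℝ) ≤ (1 - 1 / (10 ^ 10 * (d + 2) ^ 30)) * 2 ^ d := by
  classical
  have hd' : (2 : ℝ) ≤ d := by exact_mod_cast hd
  have hc : (1 : ℝ) / (10 ^ 10 * (d + 2) ^ 30) ≤ 1 / 2 := one_div_le_one_div_of_le (by norm_num)
    (by linarith [one_le_pow₀ (show (1 : ℝ) ≤ d + 2 by linarith) (n := 30)])
  rcases S.eq_empty_or_nonempty with rfl | ⟨x₀, h₀⟩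
  · rw [card_empty, Nat.cast_zero]
    exact mul_nonneg (by linarith) (by positivity)
  obtain ⟨k, hk, f, h1, h2, h3, h4⟩ := normalise S h₀
  rw [hV] at hk
  have hk' : (k : ℝ) ≤ d := by exact_mod_cast hk
  have hinj : Set.InjOn f S := fun x hx y hy e => by
    by_contra hxy
    obtain ⟨u, hu⟩ := hA x hx y hy hxy
    obtain ⟨a, c, ha⟩ := h4 u
    have := (hu x hx).2 hxy
    rw [ha x hx, ha y hy, e] at this
    exact lt_irrefl _ this
  have hS : SA (S.image f) := by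
    intro _ hx' _ hy' hxy
    obtain ⟨x, hx, rfl⟩ := mem_image.1 hx'
    obtain ⟨y, hy, rfl⟩ := mem_image.1 hy'
    obtain ⟨u, hu⟩ := hA x hx y hy fun e => hxy (congrArg f e)
    obtain ⟨a, c, ha⟩ := h4 u
    refine ⟨a, fun _ hz' => ?_⟩
    obtain ⟨z, hz, rfl⟩ := mem_image.1 hz'
    have := hu z hz
    rw [ha x hx, ha y hy, ha z hz, add_lt_add_iff_right, add_lt_add_iff_right] at this
    exact ⟨fun e => this.1 fun e' => e (congrArg f e'), fun e => this.2 fun e' => e (congrArg f e')⟩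
  obtain ⟨g, h⟩ := exists_ctx (K := d + 2) (S := S.image f) (by linarith) (by linarith)
    (fun _ hx' i => by
      obtain ⟨x, hx, rfl⟩ := mem_image.1 hx'
      linarith [h1 x hx i])
    (fun φ hφ i => by
      have a0 := hφ _ (mem_image_of_mem f h₀)
      have a1 : ∀ j, φ j + φ ⬝ᵥ f x₀ ≤ 1 := fun j => by
        obtain ⟨x, hx, e⟩ := h3 j
        have := hφ _ (mem_image_of_mem f hx)
        rwa [e, dotProduct_add, dotProduct_single, mul_one] at this
      have a2 : (k + 1) * (φ ⬝ᵥ f x₀) = -∑ j, φ j := by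
        simp only [dotProduct, h2, ← sum_mul]
        field_simp
      have a3 : ∑ j, (1 - (φ j + φ ⬝ᵥ f x₀)) = k - ∑ j, φ j - k * (φ ⬝ᵥ f x₀) := by
        simp only [sum_sub_distrib, sum_add_distrib, sum_const, card_univ, Fintype.card_fin,
          nsmul_eq_mul]
        ring
      have a4 := single_le_sum (f := fun j => 1 - (φ j + φ ⬝ᵥ f x₀))
        (fun j _ => sub_nonneg.2 (a1 j)) (mem_univ i)
      rw [abs_le]
      constructor <;> linarith [a1 i])
  rw [← card_image_of_injOn hinj]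
  rcases hk.eq_or_lt with rfl | hk
  · exact h.main hS hd
  · have a1 : (2 : ℝ) ^ (k + 1) ≤ 2 ^ d := pow_le_pow_right₀ one_le_two hk
    rw [pow_succ] at a1
    nlinarith [h.card_le hS, pow_pos (two_pos : (0 : ℝ) < 2) d]

end Pool.Agent.Bc94b4.Up
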