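import Pool.Agent.Lib.MP_bc94b4_co.Up.Gauge

/-! The half-size cells, the uncovered part, and the points where the gauge has a kink. -/

open Finset MeasureTheory

namespace Pool.Agent.Bc94b4.Up

variable {d : ℕ} {K : ℝ} {S : Finset (Fin d → ℝ)} {g : (Fin d → ℝ) → ℝ}

/-- Strict antipodality in coordinates. -/
def SA (S : Finset (Fin d → ℝ)) : Prop :=
  ∀ x ∈ S, ∀ y ∈ S, x ≠ y → ∃ u : Fin d → ℝ, ∀ z ∈ S,
    (z ≠ x → u ⬝ᵥ z < u ⬝ᵥ x) ∧ (z ≠ y → u ⬝ᵥ y < u ⬝ᵥ z)

/-- The open cell at `x`. -/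
def cell (g : (Fin d → ℝ) → ℝ) (x : Fin d → ℝ) : Set (Fin d → ℝ) := {z | g ((2 : ℝ) • z - x) < 1}

/-- The uncovered part. -/
def gap (S : Finset (Fin d → ℝ)) (g : (Fin d → ℝ) → ℝ) : Set (Fin d → ℝ) :=
  {z | g z < 1} \ ⋃ x ∈ S, cell g x

/-- Points with two almost supporting functionals that are far apart. -/
def Bad (S : Finset (Fin d → ℝ)) (g : (Fin d → ℝ) → ℝ) (κ τ : ℝ) : Set (Fin d → ℝ) :=
  {z | ∃ φ ψ, Pol S φ ∧ Pol S ψ ∧ (1 - κ) * g z ≤ φ ⬝ᵥ z ∧ (1 - κ) * g z ≤ ψ ⬝ᵥ z ∧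
    ∃ i, τ < φ i - ψ i}

namespace Ctx

theorem exists_pos (h : Ctx K S g) {u : Fin d → ℝ} (hu : u ≠ 0) : ∃ x ∈ S, 0 < u ⬝ᵥ x := by
  by_contra hc
  push Not at hc
  obtain ⟨i, hi⟩ := Function.ne_iff.1 hu
  have h0 : 0 < |u i| := abs_pos.2 hi
  have hK := h.K0
  have h1 := h.H2 (((K + 1) / |u i|) • u) (fun x hx => by
    rw [smul_dotProduct, smul_eq_mul]
    exact (mul_nonpos_of_nonneg_of_nonpos (by positivity) (hc x hx)).trans zero_le_one) i
  rw [Pi.smul_apply, smul_eq_mul, abs_mul, abs_of_pos (by positivity),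
    div_mul_cancel₀ _ h0.ne'] at h1
  linarith

theorem slab (h : Ctx K S g) (hA : SA S) {x y : Fin d → ℝ} (hx : x ∈ S) (hy : y ∈ S)
    (hxy : x ≠ y) : ∃ φ, Pol S φ ∧ φ ⬝ᵥ x = 1 ∧ φ ⬝ᵥ y < 0 ∧ (∀ z ∈ S, φ ⬝ᵥ y ≤ φ ⬝ᵥ z) ∧
      ∀ z, g z < 1 → φ ⬝ᵥ y < φ ⬝ᵥ z := by
  obtain ⟨u, hu⟩ := hA x hx y hy hxy
  have hlo : ∀ z ∈ S, u ⬝ᵥ y ≤ u ⬝ᵥ z := fun z hz => by
    by_cases e : z = y
    · rw [e]
    · exact ((hu z hz).2 e).le
  have hhi : ∀ z ∈ S, u ⬝ᵥ z ≤ u ⬝ᵥ x := fun z hz => by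
    by_cases e : z = x
    · rw [e]
    · exact ((hu z hz).1 e).le
  have h0 : u ≠ 0 := fun e => by simpa [e] using (hu x hx).2 hxy
  obtain ⟨p, hp, h1⟩ := h.exists_pos h0
  obtain ⟨q, hq, h2⟩ := h.exists_pos (neg_ne_zero.2 h0)
  rw [neg_dotProduct] at h2
  have h3 : 0 < u ⬝ᵥ x := h1.trans_le (hhi p hp)
  have h4 : u ⬝ᵥ y < 0 := by linarith [hlo q hq]
  have h5 := inv_pos.2 h3
  have h6 : Pol S ((u ⬝ᵥ y)⁻¹ • u) := fun z hz => by
    rw [smul_dotProduct, smul_eq_mul, inv_mul_eq_div, div_le_one_of_neg h4]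
    exact hlo z hz
  refine ⟨(u ⬝ᵥ x)⁻¹ • u, fun z hz => ?_, ?_, ?_, fun z hz => ?_, fun z hz => ?_⟩ <;>
    simp only [smul_dotProduct, smul_eq_mul]
  · exact (inv_mul_le_iff₀ h3).2 (by simpa using hhi z hz)
  · exact inv_mul_cancel₀ h3.ne'
  · exact mul_neg_of_pos_of_neg h5 h4
  · exact mul_le_mul_of_nonneg_left (hlo z hz) h5.le
  · have h7 := (h.le h6 z).trans_lt hz
    rw [smul_dotProduct, smul_eq_mul, inv_mul_eq_div, div_lt_one_of_neg h4] at h7
    exact mul_lt_mul_of_pos_left h7 h5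

theorem meas_cell (h : Ctx K S g) (x : Fin d → ℝ) : MeasurableSet (cell g x) :=
  (isOpen_lt (h.cont.comp (by fun_prop)) continuous_const).measurableSet

theorem cell_sub (h : Ctx K S g) {x : Fin d → ℝ} (hx : x ∈ S) : cell g x ⊆ {z | g z < 1} := by
  intro z hz
  have h1 : g ((2 : ℝ) • z - x) < 1 := hz
  refine lt_of_le_of_lt ((h.lub z ((g ((2 : ℝ) • z - x) + 1) / 2)).2 fun φ hφ => ?_) (by linarith)
  have h2 := h.le hφ ((2 : ℝ) • z - x)
  rw [dotProduct_sub, dotProduct_smul, smul_eq_mul] at h2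
  linarith [hφ x hx]

theorem cell_disj (h : Ctx K S g) (hA : SA S) : (S : Set (Fin d → ℝ)).PairwiseDisjoint (cell g) := by
  intro x hx y hy hxy
  refine Set.disjoint_left.2 fun z h1 h2 => ?_
  obtain ⟨φ, hφ, e, -, -, h3⟩ := h.slab hA hx hy hxy
  have h4 := h3 _ h1
  have h5 := (h.le hφ _).trans_lt h2
  rw [dotProduct_sub, dotProduct_smul, smul_eq_mul] at h4 h5
  linarith

theorem pre_cell (x : Fin d → ℝ) :
    (fun z => (1 / 2 : ℝ) • (z + x)) ⁻¹' cell g x = {z | g z < 1} := by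
  ext z
  simp [cell, smul_smul]

theorem sum_cells (h : Ctx K S g) (hA : SA S) {A : Set (Fin d → ℝ)} (hm : MeasurableSet A) :
    ∑ x ∈ S, volume.real ({z | g z < 1} ∩ (fun z => (1 / 2 : ℝ) • (z + x)) ⁻¹' A) =
      2 ^ d * volume.real (⋃ x ∈ S, cell g x ∩ A) := by
  rw [measureReal_biUnion_finset ((h.cell_disj hA).mono fun _ => Set.inter_subset_left)
    (fun x _ => (h.meas_cell x).inter hm)
    (fun x hx => h.fin (Set.inter_subset_left.trans (h.cell_sub hx))), mul_sum]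
  refine sum_congr rfl fun x _ => ?_
  rw [← vol_half' _ x, Set.preimage_inter, pre_cell]

theorem meas_gap (h : Ctx K S g) : MeasurableSet (gap S g) :=
  (h.meas 1).diff (measurableSet_biUnion _ fun x _ => h.meas_cell x)

theorem vol_gap (h : Ctx K S g) (hA : SA S) :
    2 ^ d * volume.real (gap S g) = (2 ^ d - S.card) * volume.real {z | g z < 1} := by
  have h1 := h.sum_cells hA MeasurableSet.univ
  simp only [Set.preimage_univ, Set.inter_univ, sum_const, nsmul_eq_mul] at h1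
  have h2 : (⋃ x ∈ S, cell g x) ⊆ {z | g z < 1} := Set.iUnion₂_subset fun x hx => h.cell_sub hx
  rw [gap, measureReal_sdiff h2 (measurableSet_biUnion _ fun x _ => h.meas_cell x)
    (h.fin subset_rfl)]
  linarith

theorem card_le (h : Ctx K S g) (hA : SA S) : (S.card : ℝ) ≤ 2 ^ d := by
  have h1 := h.vol_gap hA
  have h2 : 0 ≤ 2 ^ d * volume.real (gap S g) := by positivity
  rw [h1] at h2
  linarith [nonneg_of_mul_nonneg_left h2 h.pos]

theorem second (h : Ctx K S g) (i : Fin d) {a : ℝ} (ha : 0 < a) (ha1 : K * a < 1) (η : ℝ) :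
    η * volume.real {z | g z < 1 ∧
        η ≤ g (z + Pi.single i a) + g (z - Pi.single i a) - 2 * g z} ≤
      2 * K ^ 3 * a ^ 2 * volume.real {z | g z < 1} := by
  have hK := h.K0
  set v : Fin d → ℝ := Pi.single i a with hv
  set f : (Fin d → ℝ) → ℝ := fun z => g (z + v) - g z with hf
  have up : ∀ z, g (z + v) ≤ g z + K * a := fun z => by
    simpa [abs_of_pos ha] using h.single_le z i a
  have dn : ∀ z, g (z - v) ≤ g z + K * a := fun z => by
    simpa [abs_of_pos ha, Pi.single_neg, ← sub_eq_add_neg] using h.single_le z i (-a)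
  have fb : ∀ z, ‖f z‖ ≤ K * a := fun z => by
    have := dn (z + v)
    rw [add_sub_cancel_right] at this
    rw [Real.norm_eq_abs, abs_le]
    constructor <;> linarith [up z]
  have fc : Continuous f := (h.cont.comp (by fun_prop)).sub h.cont
  have fi : ∀ {A : Set (Fin d → ℝ)}, volume A ≠ ⊤ → ∀ w, IntegrableOn (fun z => f (z - w)) A :=
    fun hA w => Measure.integrableOn_of_bounded hA (by fun_prop)
      (Filter.Eventually.of_forall fun z => fb _)
  set P : Set (Fin d → ℝ) := {z | g z < 1} with hP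
  set Q : Set (Fin d → ℝ) := (fun z => z + v) ⁻¹' P with hQ
  have mP : MeasurableSet P := h.meas 1
  have mQ : MeasurableSet Q := measurable_add_const v mP
  have fP : volume P ≠ ⊤ := h.fin subset_rfl
  have fQ : volume Q ≠ ⊤ := by rwa [hQ, measure_preimage_add_right]
  have iP : IntegrableOn f P := by simpa using fi fP 0
  have iQ : IntegrableOn f Q := by simpa using fi fQ 0
  have e1 : ∫ z in Q, f z = ∫ z in P, f (z - v) := by
    simpa using (measurePreserving_add_right volume v).setIntegral_preimage_emb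
      (measurableEmbedding_addRight v) (fun z => f (z - v)) P
  have e2 := integral_inter_add_sdiff mQ iP
  have e3 := integral_inter_add_sdiff mP iQ
  rw [Set.inter_comm] at e3
  have L := h.layer' (t := K * a) (by positivity) ha1
  have fL : volume {z | g z < 1 ∧ 1 - K * a ≤ g z} ≠ ⊤ := h.fin fun z hz => hz.1
  have v1 : volume.real (P \ Q) ≤ K * (K * a) * volume.real P := by
    refine le_trans ?_ L
    refine measureReal_mono (fun z hz => ⟨hz.1, ?_⟩) fL
    have : 1 ≤ g (z + v) := not_lt.1 hz.2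
    linarith [up z]
  have v2 : volume.real (Q \ P) ≤ K * (K * a) * volume.real P := by
    refine le_trans ?_ L
    rw [← vol_shift {z | g z < 1 ∧ 1 - K * a ≤ g z} v]
    refine measureReal_mono (fun z hz => ⟨hz.1, ?_⟩) (by rwa [measure_preimage_add_right])
    have h1 : 1 ≤ g z := not_lt.1 hz.2
    have h2 := dn (z + v)
    rw [add_sub_cancel_right] at h2
    show 1 - K * a ≤ g (z + v)
    linarith
  have n1 := norm_setIntegral_le_of_norm_le_const (μ := volume) (s := P \ Q) (f := f)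
    (lt_of_le_of_lt (measure_mono Set.sdiff_subset) fP.lt_top) fun z _ => fb z
  have n2 := norm_setIntegral_le_of_norm_le_const (μ := volume) (s := Q \ P) (f := f)
    (lt_of_le_of_lt (measure_mono Set.sdiff_subset) fQ.lt_top) fun z _ => fb z
  rw [Real.norm_eq_abs, abs_le] at n1 n2
  have m1 := mul_meas_ge_le_integral_of_nonneg (μ := volume.restrict P)
    (f := fun z => f z - f (z - v)) (Filter.Eventually.of_forall fun z => by
      have : g z ≤ (g (z + v) + g (z - v)) / 2 := (h.lub _ _).2 fun φ hφ => by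
        have h1 := h.le hφ (z + v)
        have h2 := h.le hφ (z - v)
        rw [dotProduct_add] at h1
        rw [dotProduct_sub] at h2
        linarith
      simp only [hf, sub_add_cancel, Pi.zero_apply]
      linarith) (iP.sub (fi fP v)) η
  rw [integral_sub iP (fi fP v), measureReal_restrict_apply' mP] at m1
  have e4 : {z | η ≤ f z - f (z - v)} ∩ P =
      {z | g z < 1 ∧ η ≤ g (z + v) + g (z - v) - 2 * g z} := by
    ext z
    simp only [hf, hP, sub_add_cancel, Set.mem_inter_iff, Set.mem_ofPred_eq]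
    constructor <;> rintro ⟨h1, h2⟩
    · exact ⟨h2, by linarith⟩
    · exact ⟨by linarith, h1⟩
  rw [e4] at m1
  have b1 := mul_le_mul_of_nonneg_left v1 (show 0 ≤ K * a by positivity)
  have b2 := mul_le_mul_of_nonneg_left v2 (show 0 ≤ K * a by positivity)
  linarith [n1.2, n2.1]

theorem bad_cone (h : Ctx K S g) (κ τ : ℝ) :
    ∀ a : ℝ, 0 < a → ∀ z ∈ Bad S g κ τ, a • z ∈ Bad S g κ τ := by
  rintro a ha z ⟨φ, ψ, h1, h2, h3, h4, h5⟩
  refine ⟨φ, ψ, h1, h2, ?_, ?_, h5⟩ <;>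
    rw [h.smul ha, dotProduct_smul, smul_eq_mul, mul_left_comm]
  · exact mul_le_mul_of_nonneg_left h3 ha.le
  · exact mul_le_mul_of_nonneg_left h4 ha.le

theorem vol_bad (h : Ctx K S g) {κ τ a : ℝ} (ha : 0 < a) (ha1 : K * a < 1) (hτ : 0 < τ)
    (hκ0 : 0 ≤ κ) (hκ : 4 * κ ≤ a * τ) :
    τ * volume.real {z | z ∈ Bad S g κ τ ∧ g z < 1} ≤
      4 * K ^ 4 * a * volume.real {z | g z < 1} := by
  have hK := h.K0
  set A : Fin d → Set (Fin d → ℝ) := fun i => {z | g z < 1 ∧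
    a * τ / 2 ≤ g (z + Pi.single i a) + g (z - Pi.single i a) - 2 * g z} with hA
  have h1 : {z | z ∈ Bad S g κ τ ∧ g z < 1} ⊆ ⋃ i, A i := by
    rintro z ⟨⟨φ, ψ, h1, h2, h3, h4, i, h5⟩, h6⟩
    refine Set.mem_iUnion.2 ⟨i, h6, ?_⟩
    have h7 := h.le h1 (z + Pi.single i a)
    have h8 := h.le h2 (z - Pi.single i a)
    rw [dotProduct_add, dotProduct_single] at h7
    rw [dotProduct_sub, dotProduct_single] at h8
    nlinarith
  have h2 := (measureReal_mono h1 (h.fin (Set.iUnion_subset fun i z hz => hz.1))).trans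
    (measureReal_iUnion_fintype_le A)
  have h3 : a * τ / 2 * ∑ i, volume.real (A i) ≤
      d * (2 * K ^ 3 * a ^ 2 * volume.real {z | g z < 1}) := by
    rw [mul_sum]
    simpa using sum_le_card_nsmul univ _ _ fun i _ => h.second i ha ha1 (a * τ / 2)
  have h4 := mul_le_mul_of_nonneg_right h.dK
    (show 0 ≤ 2 * K ^ 3 * a ^ 2 * volume.real {z | g z < 1} by positivity)
  have h5 := mul_le_mul_of_nonneg_left h2 (show 0 ≤ a * τ / 2 by positivity)
  refine le_of_mul_le_mul_left ?_ (half_pos ha)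
  linarith

end Ctx

end Pool.Agent.Bc94b4.Up
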