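import Mathlib

/-! A bounded spanning set contains a basis in which all its members have coordinates at most 2. -/

open Module Submodule Set

namespace Pool.Agent.Bc94b4.Up

theorem spanner {V : Type*} [AddCommGroup V] [Module ℝ V] {k : ℕ} (e : Basis (Fin k) ℝ V)
    (A : Set V) (hA : span ℝ A = ⊤) {M : ℝ} (hM : ∀ a ∈ A, ∀ i, |e.repr a i| ≤ M) :
    ∃ B : Basis (Fin k) ℝ V, (∀ i, B i ∈ A) ∧ ∀ a ∈ A, ∀ i, |B.repr a i| ≤ 2 := by
  have : Module.Finite ℝ V := Module.Finite.of_basis e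
  set D : Set ℝ := {r | ∃ v : Fin k → V, (∀ i, v i ∈ A) ∧ r = |e.det v|} with hD
  have hb : BddAbove D := by
    refine ⟨(Fintype.card (Fin k)).factorial • M ^ Fintype.card (Fin k), ?_⟩
    rintro r ⟨v, hv, rfl⟩
    rw [Basis.det_apply]
    exact Matrix.det_le (abv := AbsoluteValue.abs) fun i j => by
      rw [Basis.toMatrix_apply]; exact hM _ (hv j) i
  obtain ⟨f, hf, hs, hl⟩ := exists_fun_fin_finrank_span_eq ℝ A
  have hk : k = finrank ℝ (span ℝ A) := by
    rw [hA, finrank_top, finrank_eq_card_basis e, Fintype.card_fin]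
  have h0 : IsUnit (e.det (f ∘ Fin.cast hk)) := by
    refine (e.is_basis_iff_det).1 ⟨hl.comp _ (Fin.cast_injective hk), ?_⟩
    rw [Function.Surjective.range_comp (f := Fin.cast hk) (finCongr hk).surjective, hs, hA]
  have h1 : |e.det (f ∘ Fin.cast hk)| ∈ D := ⟨_, fun i => hf _, rfl⟩
  have h2 : 0 < sSup D := lt_of_lt_of_le (abs_pos.2 h0.ne_zero) (le_csSup hb h1)
  obtain ⟨r, ⟨v, hv, rfl⟩, hr⟩ := exists_lt_of_lt_csSup ⟨_, h1⟩ (half_lt_self h2)
  have h3 : 0 < |e.det v| := lt_trans (half_pos h2) hr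
  obtain ⟨hli, hsp⟩ := (e.is_basis_iff_det).2 (abs_pos.1 h3).isUnit
  refine ⟨Basis.mk hli hsp.ge, fun i => by rw [Basis.mk_apply]; exact hv i, fun a ha i => ?_⟩
  have h4 := LinearMap.congr_fun (e.det_smul_mk_coord_eq_det_update hli hsp.ge i) a
  have h5 : e.det v * (Basis.mk hli hsp.ge).repr a i = e.det (Function.update v i a) := h4
  have h6 : |e.det (Function.update v i a)| ≤ sSup D := le_csSup hb ⟨_, fun j => by
    by_cases hj : j = i
    · rw [hj, Function.update_self]; exact ha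
    · rw [Function.update_of_ne hj]; exact hv j, rfl⟩
  rw [← h5, abs_mul] at h6
  nlinarith [abs_nonneg ((Basis.mk hli hsp.ge).repr a i)]

end Pool.Agent.Bc94b4.Up
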