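import Pool.Agent.Lib.MP_bc94b4_co.Up.Cells
import Pool.Agent.Lib.MP_bc94b4_co.Up.Span

/-! Almost two-valued functionals in all directions, and the bound in normalised coordinates. -/

open Finset MeasureTheory

namespace Pool.Agent.Bc94b4.Up

variable {d : ℕ} {K : ℝ} {S : Finset (Fin d → ℝ)} {g : (Fin d → ℝ) → ℝ}

/-- Points from which a step of length `s` along an axis ends in the uncovered part. -/
def near (S : Finset (Fin d → ℝ)) (g : (Fin d → ℝ) → ℝ) (s : ℝ) : Set (Fin d → ℝ) :=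
  ⋃ q : Fin d × Bool, (fun z => z + Pi.single q.1 (if q.2 then s else -s)) ⁻¹' gap S g

/-- Points whose midpoint with `x` is near the uncovered part. -/
def half (S : Finset (Fin d → ℝ)) (g : (Fin d → ℝ) → ℝ) (s : ℝ) (x : Fin d → ℝ) :
    Set (Fin d → ℝ) :=
  {z | g z < 1} ∩ (fun z => (1 / 2 : ℝ) • (z + x)) ⁻¹' near S g s

open Classical in
/-- Points whose midpoints with many members of `S` are near the uncovered part. -/
def Exc (S : Finset (Fin d → ℝ)) (g : (Fin d → ℝ) → ℝ) (s a : ℝ) : Set (Fin d → ℝ) :=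
  {z | a ≤ (S.filter fun x => z ∈ half S g s x).card}

/-- Almost supporting functionals at good points. -/
def Nrm (S : Finset (Fin d → ℝ)) (g : (Fin d → ℝ) → ℝ) (t κ τ s a : ℝ) : Set (Fin d → ℝ) :=
  {ν | Pol S ν ∧ ∃ z, g z < 1 ∧ z ∉ Bad S g κ τ ∧ z ∉ Exc S g s a ∧ 1 - 2 * t ≤ ν ⬝ᵥ z}

namespace Ctx

theorem exc_sub {s a : ℝ} (ha : 0 < a) : Exc S g s a ⊆ {z | g z < 1} := fun z hz => by
  classical
  obtain ⟨x, hx⟩ := card_pos.1 (Nat.cast_pos.1 (ha.trans_le hz))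
  exact (mem_filter.1 hx).2.1

theorem vol_exc (h : Ctx K S g) (hA : SA S) (s a : ℝ) :
    a * volume.real (Exc S g s a) ≤ 2 * K * (2 ^ d * volume.real (gap S g)) := by
  have m1 : MeasurableSet (near S g s) :=
    MeasurableSet.iUnion fun q => measurable_add_const _ h.meas_gap
  have f1 : volume (near S g s) ≠ ⊤ := by
    refine ne_top_of_le_ne_top ?_ (measure_iUnion_fintype_le _ _)
    refine ENNReal.sum_ne_top.2 fun q _ => ?_
    rw [measure_preimage_add_right]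
    exact h.fin Set.sdiff_subset
  have h1 := (markov_count S (half S g s)
    (fun x => (h.meas 1).inter (m1.preimage (by fun_prop)))
    (fun x => h.fin Set.inter_subset_left) a).trans_eq (h.sum_cells hA m1)
  have h2 : volume.real (⋃ x ∈ S, cell g x ∩ near S g s) ≤ volume.real (near S g s) :=
    measureReal_mono (Set.iUnion₂_subset fun _ _ => Set.inter_subset_right) f1
  have h3 : volume.real (near S g s) ≤ 2 * d * volume.real (gap S g) := by
    refine (measureReal_iUnion_fintype_le _).trans (le_of_eq ?_)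
    simp only [vol_shift, sum_const, card_univ, Fintype.card_prod, Fintype.card_fin,
      Fintype.card_bool, nsmul_eq_mul]
    push_cast
    ring
  have h4 := mul_le_mul_of_nonneg_right h.dK (measureReal_nonneg (μ := volume) (s := gap S g))
  have h5 : volume.real (⋃ x ∈ S, cell g x ∩ near S g s) ≤ 2 * K * volume.real (gap S g) := by
    linarith
  have h6 := mul_le_mul_of_nonneg_left h5 (show (0 : ℝ) ≤ 2 ^ d by positivity)
  refine h1.trans (h6.trans (le_of_eq ?_))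
  ring

theorem two_level (h : Ctx K S g) (hA : SA S) {t τ a : ℝ} (ht : 0 < t) (hκ1 : 5 * K ^ 3 * t ≤ 1)
    (hκ : 5 * K ^ 3 * t ≤ K ^ 2 * τ) {ν : Fin d → ℝ}
    (hν : ν ∈ Nrm S g t (5 * K ^ 3 * t) τ (2 * K ^ 2 * t) a) :
    ∃ E : Finset (Fin d → ℝ), (E.card : ℝ) ≤ a ∧ ∀ x ∈ S, x ∉ E →
      1 - 3 * K ^ 2 * τ ≤ ν ⬝ᵥ x ∨ ∀ p ∈ S, ν ⬝ᵥ x ≤ ν ⬝ᵥ p + 3 * K ^ 2 * τ := by
  classical
  obtain ⟨hP, z, hz, hB, hE, hνz⟩ := hν
  have hK := h.K0
  have h64 : 64 ≤ K ^ 3 := by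
    have := pow_le_pow_left₀ (by norm_num) h.K4 3
    linarith
  have hKt : 64 * t ≤ K ^ 3 * t := mul_le_mul_of_nonneg_right h64 ht.le
  have hτ : 0 ≤ K ^ 2 * τ := le_trans (by positivity) hκ
  have hτ' : 0 ≤ τ := nonneg_of_mul_nonneg_right hτ (by positivity)
  refine ⟨_, (not_le.1 hE).le, fun x hx hxE => ?_⟩
  have hW : (1 / 2 : ℝ) • (z + x) ∉ near S g (2 * K ^ 2 * t) := fun hw =>
    hxE (mem_filter.2 ⟨hx, hz, hw⟩)
  have close : ∀ φ, Pol S φ → 1 - 5 * K ^ 3 * t ≤ φ ⬝ᵥ z → ∀ p ∈ S,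
      |φ ⬝ᵥ p - ν ⬝ᵥ p| ≤ K ^ 2 * τ := fun φ hφ h1 p hp => by
    have h2 : (1 - 5 * K ^ 3 * t) * g z ≤ 1 - 5 * K ^ 3 * t :=
      mul_le_of_le_one_right (by linarith) hz.le
    have h3 : ∀ i, |(φ - ν) i| ≤ τ := fun i => by
      rw [Pi.sub_apply, abs_le]
      constructor
      · by_contra hc
        exact hB ⟨ν, φ, hP, hφ, by linarith, by linarith, i, by linarith⟩
      · by_contra hc
        exact hB ⟨φ, ν, hφ, hP, by linarith, by linarith, i, by linarith⟩
    have h4 := h.dot h3 (h.H1 p hp) (by positivity)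
    rw [sub_dotProduct] at h4
    exact h4.trans (le_of_eq (by ring))
  obtain ⟨i, hi⟩ : ∃ i, 1 / (2 * K ^ 2) * 2 / 2 ≤ |ν i| := by
    by_contra hc
    push Not at hc
    have h1 := h.dot (fun i => (hc i).le)
      (fun i => (h.coord z i).trans (mul_le_mul_of_nonneg_left hz.le hK.le)) (by positivity)
    have h2 : K * (1 / (2 * K ^ 2) * 2 / 2 * (K * 1)) = 1 / 2 := by field_simp
    have h3 := le_abs_self (ν ⬝ᵥ z)
    have h4 : 1 - 2 * t ≤ 1 / 2 := by linarith
    linarith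
  obtain ⟨σ, hσ⟩ : ∃ σ : Bool, ν i * (if σ then 2 * K ^ 2 * t else -(2 * K ^ 2 * t)) =
      |ν i| * (2 * K ^ 2 * t) := by
    rcases abs_cases (ν i) with e | e
    · exact ⟨true, by simp [e.1]⟩
    · exact ⟨false, by simp [e.1]⟩
  set r : ℝ := if σ then 2 * K ^ 2 * t else -(2 * K ^ 2 * t) with hr
  have hr' : K * |r| = 2 * K ^ 3 * t := by
    have : |r| = 2 * K ^ 2 * t := by
      rw [hr]; split_ifs <;> simp [abs_of_pos (show 0 < 2 * K ^ 2 * t by positivity)]
    rw [this]; ring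
  have hi' : t ≤ |ν i| * (2 * K ^ 2 * t) := by
    have := mul_le_mul_of_nonneg_right hi (show 0 ≤ 2 * K ^ 2 * t by positivity)
    refine le_trans (le_of_eq ?_) this
    field_simp
  have hw : (1 / 2 : ℝ) • (z + x) + Pi.single i r ∉ gap S g := fun hw =>
    hW (Set.mem_iUnion.2 ⟨(i, σ), hw⟩)
  have ex : ∀ φ : Fin d → ℝ, φ ⬝ᵥ ((1 / 2 : ℝ) • (z + x) + Pi.single i r) =
      (φ ⬝ᵥ z + φ ⬝ᵥ x) / 2 + φ ⬝ᵥ Pi.single i r := fun φ => by
    rw [dotProduct_add, dotProduct_smul, dotProduct_add, smul_eq_mul]; ring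
  by_cases hg : g ((1 / 2 : ℝ) • (z + x) + Pi.single i r) < 1
  · obtain ⟨y, hy, hc⟩ : ∃ y ∈ S, (1 / 2 : ℝ) • (z + x) + Pi.single i r ∈ cell g y := by
      by_contra hc
      exact hw ⟨hg, fun hu => hc (by simpa using hu)⟩
    have hyx : y ≠ x := by
      rintro rfl
      have h1 := (h.le hP _).trans_lt hc
      rw [dotProduct_sub, dotProduct_smul, ex, dotProduct_single, smul_eq_mul] at h1
      linarith
    obtain ⟨φ, hφ, e, -, hlo, h1⟩ := h.slab hA hy hx hyx
    have h2 := h1 _ hc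
    rw [dotProduct_sub, dotProduct_smul, ex, smul_eq_mul] at h2
    have h3 := abs_le.1 (h.single hφ i r)
    have h4 := close φ hφ (by linarith [h3.2])
    refine Or.inr fun p hp => ?_
    linarith [(abs_le.1 (h4 x hx)).1, (abs_le.1 (h4 p hp)).2, hlo p hp]
  · obtain ⟨φ, hφ, h1⟩ := h.lt (show 1 - t < _ from lt_of_lt_of_le (by linarith) (not_lt.1 hg))
    rw [ex] at h1
    have h3 := abs_le.1 (h.single hφ i r)
    have h4 := close φ hφ (by linarith [h3.2, hφ x hx]) x hx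
    refine Or.inl ?_
    linarith [(abs_le.1 h4).2, h.le hφ z, h3.2]

theorem cover (h : Ctx K S g) {θ : Fin d → ℝ} {i : Fin d} (hi : |θ i| = 1) {r : ℝ} (hr : 0 < r)
    (hrK : r ≤ K) : r * volume.real {z | g z < 1} ≤
      3 * K * volume.real {z | g z < 1 ∧ 1 ≤ g (z + r • θ)} := by
  have hK := h.K0
  set E := {z | g z < 1 ∧ 1 ≤ g (z + r • θ)} with hE
  set m := ⌈2 * K / r⌉₊ with hm
  have h1 : {z | g z < 1} ⊆ ⋃ k ∈ range m, (fun z => z + ((k : ℝ) * r) • θ) ⁻¹' E := by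
    intro z hz
    by_contra hc
    have h2 : ∀ k, k ≤ m → g (z + ((k : ℝ) * r) • θ) < 1 := fun k => by
      induction k with
      | zero => intro _; simpa using hz
      | succ k ih =>
        intro hk
        by_contra h3
        refine hc (Set.mem_iUnion₂.2 ⟨k, mem_range.2 hk, ih (by omega), ?_⟩)
        rw [add_assoc, ← add_smul, ← add_one_mul, ← Nat.cast_succ]
        exact not_lt.1 h3
    have h3 := (h.coord _ i).trans_lt (mul_lt_mul_of_pos_left (h2 m le_rfl) hK)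
    have h4 := (h.coord _ i).trans_lt (mul_lt_mul_of_pos_left (show g z < 1 from hz) hK)
    have h5 : 2 * K ≤ m * r := (div_le_iff₀ hr).1 (Nat.le_ceil _)
    have h6 := abs_sub (z i + m * r * θ i) (z i)
    rw [add_sub_cancel_left, abs_mul, hi, abs_of_nonneg (by positivity)] at h6
    rw [Pi.add_apply, Pi.smul_apply, smul_eq_mul] at h3
    linarith
  have h2 := (measureReal_mono (μ := volume) h1 ((measure_biUnion_lt_top (finite_toSet _) fun k _ => by
    rw [measure_preimage_add_right]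
    exact (h.fin fun z hz => hz.1).lt_top).ne)).trans (measureReal_biUnion_finset_le _ _)
  simp only [vol_shift, sum_const, card_range, nsmul_eq_mul] at h2
  have h3 : (m : ℝ) * r ≤ 3 * K := by
    have := (Nat.ceil_lt_add_one (show 0 ≤ 2 * K / r by positivity)).le
    have h4 := mul_le_mul_of_nonneg_right this hr.le
    rw [add_mul, div_mul_cancel₀ _ hr.ne'] at h4
    linarith
  nlinarith [measureReal_nonneg (μ := volume) (s := E)]

theorem direction (h : Ctx K S g) {t κ τ s a : ℝ} (ht : 0 < t) (ht1 : 2 * t < 1) (ha : 0 < a)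
    (hB : 20 * K ^ 4 * volume.real {z | z ∈ Bad S g κ τ ∧ g z < 1} ≤ volume.real {z | g z < 1})
    (hX : 10 * K ^ 3 * volume.real (Exc S g s a) ≤ t * volume.real {z | g z < 1})
    {θ : Fin d → ℝ} (hθ : θ ≠ 0) :
    ∃ ν ∈ Nrm S g t κ τ s a, ∃ i, (∀ j, |θ j| ≤ |θ i|) ∧ |θ i| ≤ 20 * K ^ 2 * (ν ⬝ᵥ θ) := by
  obtain ⟨j, hj⟩ := Function.ne_iff.1 hθ
  have : Nonempty (Fin d) := ⟨j⟩
  obtain ⟨i, hi⟩ := Finite.exists_max fun i => |θ i|
  have hM : 0 < |θ i| := (abs_pos.2 hj).trans_le (hi j)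
  by_contra hc
  push Not at hc
  have hK := h.K0
  have hK2 : 16 ≤ K ^ 2 := by nlinarith [h.K4]
  set ξ := |θ i|⁻¹ • θ with hξ
  have x1 : ∀ j, |ξ j| ≤ 1 := fun j => by
    rw [hξ, Pi.smul_apply, smul_eq_mul, abs_mul, abs_inv, abs_abs]
    exact (inv_mul_le_iff₀ hM).2 (by simpa using hi j)
  have x2 : |ξ i| = 1 := by
    rw [hξ, Pi.smul_apply, smul_eq_mul, abs_mul, abs_inv, abs_abs, inv_mul_cancel₀ hM.ne']
  set r := t / K ^ 2 with hr
  have r0 : 0 < r := by positivity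
  have r1 : r * K ^ 2 = t := div_mul_cancel₀ _ (by positivity)
  set β := 1 / (20 * K ^ 2) with hβ
  have β0 : 0 < β := by positivity
  have β1 : β * (20 * K ^ 2) = 1 := div_mul_cancel₀ _ (by positivity)
  have β2 : β ≤ 1 := by nlinarith
  have r2 : r * β ≤ t := by nlinarith
  have h1 := h.cover x2 r0 (by nlinarith [h.K4])
  have h2 : {z | g z < 1 ∧ 1 ≤ g (z + r • ξ)} ⊆
      ({z | z ∈ Bad S g κ τ ∧ g z < 1 ∧ 1 - 2 * t ≤ g z} ∪ Exc S g s a) ∪
        {z | g z < 1 ∧ 1 - 2 * (r * β) ≤ g z} := by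
    rintro z ⟨hz, hz'⟩
    obtain ⟨φ, hφ, h3⟩ := h.lt (show 1 - r * β < _ from lt_of_lt_of_le (by nlinarith) hz')
    rw [dotProduct_add, dotProduct_smul, smul_eq_mul] at h3
    have h4 := (le_abs_self _).trans (h.dot (h.H2 φ hφ) x1 (by positivity))
    have h5 : 1 - 2 * t ≤ φ ⬝ᵥ z := by nlinarith
    by_cases b1 : z ∈ Bad S g κ τ
    · exact Or.inl (Or.inl ⟨b1, hz, h5.trans (h.le hφ z)⟩)
    by_cases b2 : z ∈ Exc S g s a
    · exact Or.inl (Or.inr b2)
    have h6 := hc φ ⟨hφ, z, hz, b1, b2, h5⟩ i hi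
    have h7 : φ ⬝ᵥ ξ ≤ β := by
      rw [hξ, dotProduct_smul, smul_eq_mul, inv_mul_le_iff₀ hM, hβ, mul_one_div,
        le_div_iff₀' (by positivity)]
      exact h6.le
    exact Or.inr ⟨hz, by nlinarith [h.le hφ z]⟩
  have h3 := (measureReal_mono h2 (h.fin (Set.union_subset (Set.union_subset (fun z hz => hz.2.1)
    (exc_sub ha)) fun z hz => hz.1))).trans ((measureReal_union_le _ _).trans
      (add_le_add_left (measureReal_union_le _ _) _))
  have h4 := h.layer (h.bad_cone κ τ) (t := 2 * t) (by positivity) ht1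
  have h5 := h.layer' (t := 2 * (r * β)) (by positivity) (by linarith)
  have hV := h.pos
  set V := volume.real {z | g z < 1}
  have h6 : K ^ 2 * (r * V) ≤ K ^ 2 * (3 * K * (K * (2 * t) *
      volume.real {z | z ∈ Bad S g κ τ ∧ g z < 1} + volume.real (Exc S g s a) +
        K * (2 * (r * β)) * V)) :=
    mul_le_mul_of_nonneg_left (h1.trans (mul_le_mul_of_nonneg_left (by linarith)
      (by positivity))) (by positivity)
  have h7 := mul_le_mul_of_nonneg_left hB ht.le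
  have h8 : K ^ 2 * (r * V) = t * V := by rw [← r1]; ring
  have h9 : K ^ 2 * (3 * K * (K * (2 * (r * β)) * V)) = 3 / 10 * (t * V) := by
    rw [← r1]
    linear_combination (3 / 10 * (r * K ^ 2 * V)) * β1
  have h10 : 0 < t * V := by positivity
  nlinarith

theorem main (h : Ctx K S g) (hA : SA S) (hd : 2 ≤ d) :
    (S.card : ℝ) ≤ (1 - 1 / (10 ^ 10 * K ^ 30)) * 2 ^ d := by
  classical
  by_contra hc
  rw [not_le] at hc
  have hK := h.K0
  have hK1 : 1 ≤ K := by linarith [h.K4]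
  have hp : ∀ n : ℕ, 1 ≤ K ^ n := fun n => one_le_pow₀ hK1
  have hV := h.pos
  set τ := 1 / (125 * K ^ 7) with hτ
  set t := 1 / (25000000 * K ^ 25) with ht
  set a := 2 ^ d / (8 * K) with ha
  have τ0 : 0 < τ := by positivity
  have t0 : 0 < t := by positivity
  have a0 : 0 < a := by positivity
  have k1 : 5 * K ^ 3 * t = 1 / (5000000 * K ^ 22) := by rw [ht]; field_simp; norm_num
  have k2 : 5 * K ^ 3 * t ≤ 1 := by
    rw [k1, div_le_one (by positivity)]; linarith [hp 22]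
  have k3 : 5 * K ^ 3 * t ≤ K ^ 2 * τ := by
    rw [k1, show K ^ 2 * τ = 1 / (125 * K ^ 5) by rw [hτ]; field_simp]
    refine one_div_le_one_div_of_le (by positivity) ?_
    linarith [pow_le_pow_right₀ hK1 (show 5 ≤ 22 by norm_num), hp 22]
  have hB := h.vol_bad (κ := 5 * K ^ 3 * t) (τ := τ) (a := 1 / (10000 * K ^ 15)) (by positivity)
    (by
      rw [mul_one_div, div_lt_one (by positivity)]
      linarith [le_self_pow₀ hK1 (show 15 ≠ 0 by norm_num)]) τ0 (by positivity)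
    (le_of_eq (by rw [k1, hτ]; field_simp; norm_num))
  have hB' : 20 * K ^ 4 * volume.real {z | z ∈ Bad S g (5 * K ^ 3 * t) τ ∧ g z < 1} ≤
      volume.real {z | g z < 1} := by
    have := mul_le_mul_of_nonneg_left hB (show 0 ≤ 2500 * K ^ 11 by positivity)
    rw [← mul_assoc, ← mul_assoc, show 2500 * K ^ 11 * τ = 20 * K ^ 4 by
      rw [hτ]; field_simp; norm_num, show 2500 * K ^ 11 * (4 * K ^ 4 * (1 / (10000 * K ^ 15))) = 1 by
      field_simp; norm_num, one_mul] at this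
    exact this
  have hX : 10 * K ^ 3 * volume.real (Exc S g (2 * K ^ 2 * t) a) ≤
      t * volume.real {z | g z < 1} := by
    have h1 := h.vol_exc hA (2 * K ^ 2 * t) a
    rw [h.vol_gap hA] at h1
    have h2 : (2 ^ d - S.card) * volume.real {z | g z < 1} ≤
        1 / (10 ^ 10 * K ^ 30) * 2 ^ d * volume.real {z | g z < 1} :=
      mul_le_mul_of_nonneg_right (by linarith) hV.le
    have h3 := h1.trans (mul_le_mul_of_nonneg_left h2 (by positivity))
    have h4 := mul_le_mul_of_nonneg_left h3 (show 0 ≤ 80 * K ^ 4 / 2 ^ d by positivity)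
    rw [← mul_assoc, show 80 * K ^ 4 / 2 ^ d * a = 10 * K ^ 3 by rw [ha]; field_simp; norm_num,
      show 80 * K ^ 4 / 2 ^ d * (2 * K * (1 / (10 ^ 10 * K ^ 30) * 2 ^ d *
        volume.real {z | g z < 1})) = 2 / 5 * (t * volume.real {z | g z < 1}) by
        rw [ht]; field_simp; norm_num] at h4
    linarith [mul_pos t0 hV]
  have t1 : 2 * t < 1 := by
    rw [ht, mul_one_div, div_lt_one (by positivity)]; linarith [hp 25]
  have dir := fun θ (hθ : θ ≠ 0) => h.direction t0 t1 a0 hB' hX hθ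
  set N := Nrm S g t (5 * K ^ 3 * t) τ (2 * K ^ 2 * t) a with hN
  have hspan : Submodule.span ℝ N = ⊤ := by
    by_contra hs
    obtain ⟨f, hf, hle⟩ := Submodule.exists_le_ker_of_lt_top _ (lt_top_iff_ne_top.2 hs)
    have e : ∀ v, f v = v ⬝ᵥ fun i => f (Pi.single i 1) := fun v => by
      conv_lhs => rw [pi_eq_sum_univ' v, map_sum]
      simp [dotProduct]
    have h0 : (fun i => f (Pi.single i 1)) ≠ 0 := fun h0 =>
      hf (LinearMap.ext fun v => by rw [e, h0]; simp)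
    obtain ⟨ν, hν, i, h1, h2⟩ := dir _ h0
    rw [← e, show f ν = 0 from hle (Submodule.subset_span hν), mul_zero] at h2
    exact h0 (funext fun j => abs_nonpos_iff.1 ((h1 j).trans h2))
  obtain ⟨B, hBN, hB2⟩ := spanner (Pi.basisFun ℝ (Fin d)) N hspan (M := K)
    fun ν hν i => by simpa using h.H2 ν hν.1 i
  have expand : ∀ u z : Fin d → ℝ, u ⬝ᵥ z = ∑ i, B.repr u i * (B i ⬝ᵥ z) := fun u z => by
    conv_lhs => rw [← B.sum_repr u, sum_dotProduct]
    simp only [smul_dotProduct, smul_eq_mul]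
  choose E hE hE' using fun i => h.two_level hA t0 k2 k3 (hBN i)
  have hlo : ∀ i, ∃ p ∈ S, B i ⬝ᵥ p < 0 ∧ ∀ z ∈ S, B i ⬝ᵥ p ≤ B i ⬝ᵥ z := fun i => by
    obtain ⟨q, hq, h1⟩ := h.exists_pos (neg_ne_zero.2 (B.ne_zero i))
    obtain ⟨p, hp, h2⟩ := exists_min_image S (fun z => B i ⬝ᵥ z) ⟨q, hq⟩
    rw [neg_dotProduct] at h1
    exact ⟨p, hp, by linarith [h2 q hq], h2⟩
  choose p hpS hp0 hpm using hlo
  set S' := S \ univ.biUnion E with hS'
  have mem : ∀ x ∈ S', x ∈ S ∧ ∀ i, x ∉ E i := fun x hx => by simpa [hS'] using hx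
  set ρ := 3 * K ^ 2 * τ with hρ
  have ρ0 : 0 < ρ := by positivity
  have ρ1 : ρ * (125 * K ^ 5) = 3 := by rw [hρ, hτ]; field_simp
  have lev : ∀ x ∈ S', ∀ i, if 1 - ρ ≤ B i ⬝ᵥ x then B i ⬝ᵥ x ≤ 1
      else B i ⬝ᵥ p i ≤ B i ⬝ᵥ x ∧ B i ⬝ᵥ x ≤ B i ⬝ᵥ p i + ρ := fun x hx i => by
    split_ifs with hb
    · exact (hBN i).1 x (mem x hx).1
    · exact ⟨hpm i x (mem x hx).1,
        (hE' i x (mem x hx).1 ((mem x hx).2 i)).resolve_left hb _ (hpS i)⟩
  have hr := rigid hd S' (fun x i => (B i ⬝ᵥ x - B i ⬝ᵥ p i) / (1 - B i ⬝ᵥ p i))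
    (fun x i => decide (1 - ρ ≤ B i ⬝ᵥ x)) (τ := ρ) ?_ (fun x hx i => ?_)
    (fun x hx y hy e => ?_) (fun x hx y hy hxy => ?_)
  · have h1 : (S.card : ℝ) ≤ S'.card + (univ.biUnion E).card := by
      exact_mod_cast card_le_card_sdiff_add_card
    have h2 : ((univ.biUnion E).card : ℝ) ≤ d * a := by
      have h2 : ((univ.biUnion E).card : ℝ) ≤ ∑ i, ((E i).card : ℝ) := by
        exact_mod_cast card_biUnion_le
      refine h2.trans ?_
      simpa using sum_le_card_nsmul univ (fun i => ((E i).card : ℝ)) a fun i _ => hE i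
    have h3 : K * a = 2 ^ d / 8 := by rw [ha]; field_simp
    have h4 : (4 * S'.card : ℝ) ≤ 3 * 2 ^ d := by exact_mod_cast hr
    have h5 : 1 / (10 ^ 10 * K ^ 30) ≤ 1 / 8 :=
      one_div_le_one_div_of_le (by norm_num) (by linarith [hp 30])
    nlinarith [mul_le_mul_of_nonneg_right h.dK a0.le, pow_pos (two_pos : (0 : ℝ) < 2) d]
  · have h1 := mul_le_mul_of_nonneg_right h.dK ρ0.le
    have h2 := mul_le_mul_of_nonneg_right (le_self_pow₀ hK1 (show 5 ≠ 0 by norm_num)) ρ0.le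
    linarith
  · have h1 := lev x hx i
    have h2 : 0 < 1 - B i ⬝ᵥ p i := by linarith [hp0 i]
    have h3 := mul_nonneg ρ0.le (neg_nonneg.2 (hp0 i).le)
    by_cases hb : 1 - ρ ≤ B i ⬝ᵥ x
    · rw [if_pos hb] at h1
      rw [if_pos (decide_eq_true hb), div_sub_one h2.ne', abs_div, abs_of_pos h2, div_le_iff₀ h2,
        abs_le]
      constructor <;> linarith
    · rw [if_neg hb] at h1
      rw [if_neg (by simpa using hb), sub_zero, abs_div, abs_of_pos h2, div_le_iff₀ h2, abs_le]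
      constructor <;> linarith [h1.1, h1.2]
  · by_contra hxy
    have h1 : ∀ i, |B i ⬝ᵥ (x - y)| ≤ ρ := fun i => by
      have h1 := lev x hx i
      have h2 := lev y hy i
      have h3 : 1 - ρ ≤ B i ⬝ᵥ x ↔ 1 - ρ ≤ B i ⬝ᵥ y := by simpa using congrFun e i
      rw [dotProduct_sub, abs_le]
      by_cases hb : 1 - ρ ≤ B i ⬝ᵥ x
      · rw [if_pos hb] at h1
        rw [if_pos (h3.1 hb)] at h2
        constructor <;> linarith [h3.1 hb]
      · rw [if_neg hb] at h1
        rw [if_neg (mt h3.2 hb)] at h2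
        constructor <;> linarith [h1.1, h1.2, h2.1, h2.2]
    obtain ⟨ν, hν, i, h2, h3⟩ := dir _ (sub_ne_zero.2 hxy)
    obtain ⟨φ, hφ, e1, e2, -⟩ := h.slab hA (mem x hx).1 (mem y hy).1 hxy
    have h4 := (le_abs_self _).trans (h.dot (h.H2 φ hφ) h2 (by positivity))
    rw [dotProduct_sub] at h4
    have h5 : ν ⬝ᵥ (x - y) ≤ K * (2 * ρ) := by
      rw [expand]
      exact (le_abs_self _).trans (h.dot (φ := fun i => B.repr ν i) (hB2 ν hν) h1 (by positivity))
    have h6 := h3.trans (mul_le_mul_of_nonneg_left h5 (by positivity))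
    have h7 := mul_le_mul_of_nonneg_left h6 (show 0 ≤ K * K by positivity)
    linarith
  · obtain ⟨u, hu⟩ := hA x (mem x hx).1 y (mem y hy).1 hxy
    refine ⟨fun i => B.repr u i * (1 - B i ⬝ᵥ p i), fun z hz => ?_⟩
    have e : ∀ z, ((fun i => B.repr u i * (1 - B i ⬝ᵥ p i)) ⬝ᵥ fun i =>
        (B i ⬝ᵥ z - B i ⬝ᵥ p i) / (1 - B i ⬝ᵥ p i)) =
        u ⬝ᵥ z - ∑ i, B.repr u i * (B i ⬝ᵥ p i) := fun z => by
      rw [expand u z, ← sum_sub_distrib]
      refine sum_congr rfl fun i _ => ?_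
      have h2 : 1 - B i ⬝ᵥ p i ≠ 0 := by linarith [hp0 i]
      field_simp
    simp only [e, sub_lt_sub_iff_right]
    exact hu z (mem z hz).1

end Ctx

end Pool.Agent.Bc94b4.Up
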