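import Pool.Agent.Lib.MP_bc94b4_co.Up.Rigid

/-! The gauge of a normalised finite set, and volumes of its sublevel sets. -/

open Finset MeasureTheory
open scoped Pointwise

namespace Pool.Agent.Bc94b4.Up

variable {d : ℕ} {K : ℝ} {S : Finset (Fin d → ℝ)} {g : (Fin d → ℝ) → ℝ}

/-- The polar set. -/
def Pol (S : Finset (Fin d → ℝ)) (φ : Fin d → ℝ) : Prop := ∀ x ∈ S, φ ⬝ᵥ x ≤ 1

/-- A normalised set with its gauge. -/
structure Ctx (K : ℝ) (S : Finset (Fin d → ℝ)) (g : (Fin d → ℝ) → ℝ) : Prop where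
  K4 : 4 ≤ K
  dK : (d : ℝ) ≤ K
  H1 : ∀ x ∈ S, ∀ i, |x i| ≤ K
  H2 : ∀ φ, Pol S φ → ∀ i, |φ i| ≤ K
  lub : ∀ z r, g z ≤ r ↔ ∀ φ, Pol S φ → φ ⬝ᵥ z ≤ r

theorem pol_zero : Pol S 0 := fun x _ => by simp

theorem exists_ctx (K4 : 4 ≤ K) (dK : (d : ℝ) ≤ K) (H1 : ∀ x ∈ S, ∀ i, |x i| ≤ K)
    (H2 : ∀ φ, Pol S φ → ∀ i, |φ i| ≤ K) : ∃ g, Ctx K S g := by
  refine ⟨fun z => sSup ((fun φ => φ ⬝ᵥ z) '' {φ | Pol S φ}), K4, dK, H1, H2, fun z r => ?_⟩
  have hb : BddAbove ((fun φ => φ ⬝ᵥ z) '' {φ | Pol S φ}) := by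
    refine ⟨d * (K * ‖z‖), ?_⟩
    rintro _ ⟨φ, hφ, rfl⟩
    exact (le_abs_self _).trans (dot_le (H2 φ hφ) fun i => norm_le_pi_norm z i)
  rw [csSup_le_iff hb ⟨_, 0, pol_zero, rfl⟩]
  exact ⟨fun h φ hφ => h _ ⟨φ, hφ, rfl⟩, fun h _ ⟨φ, hφ, e⟩ => e ▸ h φ hφ⟩

namespace Ctx

theorem K0 (h : Ctx K S g) : 0 < K := by linarith [h.K4]

theorem le (h : Ctx K S g) {φ : Fin d → ℝ} (hφ : Pol S φ) (z : Fin d → ℝ) : φ ⬝ᵥ z ≤ g z :=
  (h.lub z _).1 le_rfl φ hφ

theorem lt (h : Ctx K S g) {z : Fin d → ℝ} {r : ℝ} (hr : r < g z) : ∃ φ, Pol S φ ∧ r < φ ⬝ᵥ z := by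
  by_contra hc
  push Not at hc
  exact absurd ((h.lub z r).2 hc) (not_le.2 hr)

theorem nonneg (h : Ctx K S g) (z : Fin d → ℝ) : 0 ≤ g z := by
  simpa using h.le pol_zero z

theorem dot (h : Ctx K S g) {φ w : Fin d → ℝ} {M ρ : ℝ} (h1 : ∀ i, |φ i| ≤ M)
    (h2 : ∀ i, |w i| ≤ ρ) (hM : 0 ≤ M * ρ) : |φ ⬝ᵥ w| ≤ K * (M * ρ) :=
  (dot_le h1 h2).trans (mul_le_mul_of_nonneg_right h.dK hM)

theorem single (h : Ctx K S g) {φ : Fin d → ℝ} (hφ : Pol S φ) (i : Fin d) (a : ℝ) :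
    |φ ⬝ᵥ Pi.single i a| ≤ K * |a| := by
  rw [dotProduct_single, abs_mul]
  exact mul_le_mul_of_nonneg_right (h.H2 φ hφ i) (abs_nonneg _)

theorem single_le (h : Ctx K S g) (z : Fin d → ℝ) (i : Fin d) (a : ℝ) :
    g (z + Pi.single i a) ≤ g z + K * |a| := (h.lub _ _).2 fun φ hφ => by
  rw [dotProduct_add]
  exact add_le_add (h.le hφ z) ((le_abs_self _).trans (h.single hφ i a))

theorem smul (h : Ctx K S g) {a : ℝ} (ha : 0 < a) (z : Fin d → ℝ) : g (a • z) = a * g z := by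
  have key : ∀ a : ℝ, 0 < a → ∀ z, g (a • z) ≤ a * g z := fun a ha z =>
    (h.lub _ _).2 fun φ hφ => by
      rw [dotProduct_smul, smul_eq_mul]
      exact mul_le_mul_of_nonneg_left (h.le hφ z) ha.le
  refine le_antisymm (key a ha z) ?_
  have := key a⁻¹ (inv_pos.2 ha) (a • z)
  rw [inv_smul_smul₀ ha.ne'] at this
  exact (le_inv_mul_iff₀ ha).1 this

theorem cont (h : Ctx K S g) : Continuous g := by
  have hK := h.K0
  refine (LipschitzWith.of_le_add_mul' (K * K) fun x y => (h.lub _ _).2 fun φ hφ => ?_).continuous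
  have h1 := h.dot (h.H2 φ hφ) (fun i => norm_le_pi_norm (x - y) i) (by positivity)
  rw [dotProduct_sub] at h1
  rw [dist_eq_norm]
  linarith [h.le hφ y, le_abs_self (φ ⬝ᵥ x - φ ⬝ᵥ y)]

theorem coord (h : Ctx K S g) (z : Fin d → ℝ) (i : Fin d) : |z i| ≤ K * g z := by
  have hK := h.K0
  have key : ∀ σ : ℝ, |σ| = 1 → σ * z i ≤ K * g z := fun σ hσ => by
    have h1 : Pol S (Pi.single i (σ / K)) := fun x hx => by
      rw [single_dotProduct, div_mul_eq_mul_div, div_le_one hK]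
      refine (le_abs_self _).trans ?_
      rw [abs_mul, hσ, one_mul]
      exact h.H1 x hx i
    have h2 := h.le h1 z
    rwa [single_dotProduct, div_mul_eq_mul_div, div_le_iff₀' hK] at h2
  rw [abs_le]
  constructor <;> linarith [key 1 (by simp), key (-1) (by simp)]

theorem meas (h : Ctx K S g) (r : ℝ) : MeasurableSet {z | g z < r} :=
  (isOpen_lt h.cont continuous_const).measurableSet

theorem fin (h : Ctx K S g) {A : Set (Fin d → ℝ)} (hA : A ⊆ {z | g z < 1}) : volume A ≠ ⊤ := by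
  refine ne_top_of_le_ne_top (measure_closedBall_lt_top (x := 0) (r := K)).ne
    (measure_mono fun z hz => ?_)
  rw [mem_closedBall_zero_iff, pi_norm_le_iff_of_nonneg h.K0.le]
  exact fun i => (h.coord z i).trans (mul_le_of_le_one_right h.K0.le (hA hz).le)

theorem pos (h : Ctx K S g) : 0 < volume.real {z | g z < 1} := by
  refine ENNReal.toReal_pos ((isOpen_lt h.cont continuous_const).measure_pos volume
    ⟨0, ?_⟩).ne' (h.fin subset_rfl)
  exact lt_of_le_of_lt ((h.lub 0 0).2 fun φ _ => by simp) one_pos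

theorem layer (h : Ctx K S g) {B : Set (Fin d → ℝ)}
    (hB : ∀ a : ℝ, 0 < a → ∀ z ∈ B, a • z ∈ B) {t : ℝ} (h0 : 0 ≤ t) (h1 : t < 1) :
    volume.real {z | z ∈ B ∧ g z < 1 ∧ 1 - t ≤ g z} ≤
      K * t * volume.real {z | z ∈ B ∧ g z < 1} := by
  have hr : 0 < 1 - t := by linarith
  have e1 : {z | z ∈ B ∧ g z < 1} ∩ {z | g z < 1 - t} = (1 - t) • {z | z ∈ B ∧ g z < 1} := by
    ext z
    rw [Set.mem_smul_set_iff_inv_smul_mem₀ hr.ne']
    simp only [Set.mem_inter_iff, Set.mem_ofPred_eq, h.smul (inv_pos.2 hr), inv_mul_lt_iff₀ hr,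
      mul_one]
    refine ⟨fun hz => ⟨hB _ (inv_pos.2 hr) z hz.1.1, hz.2⟩, fun hz => ⟨⟨?_, by linarith [hz.2]⟩, hz.2⟩⟩
    simpa [smul_inv_smul₀ hr.ne'] using hB _ hr _ hz.1
  have e2 : {z | z ∈ B ∧ g z < 1} \ {z | g z < 1 - t} = {z | z ∈ B ∧ g z < 1 ∧ 1 - t ≤ g z} := by
    ext z
    simp only [Set.mem_sdiff, Set.mem_ofPred_eq, not_lt, and_assoc]
  have e3 := measureReal_inter_add_sdiff (μ := volume) (s := {z | z ∈ B ∧ g z < 1})
    (h.meas (1 - t)) (h.fin fun z hz => hz.2)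
  rw [e1, e2, measureReal_def, Measure.addHaar_smul, ENNReal.toReal_mul,
    ENNReal.toReal_ofReal (abs_nonneg _), Module.finrank_fin_fun, abs_of_pos (pow_pos hr _),
    ← measureReal_def] at e3
  have e4 := one_add_mul_le_pow (a := -t) (by linarith) d
  rw [← sub_eq_add_neg] at e4
  have e5 : 1 - K * t ≤ (1 - t) ^ d := by nlinarith [h.dK]
  nlinarith [measureReal_nonneg (μ := volume) (s := {z | z ∈ B ∧ g z < 1})]

theorem layer' (h : Ctx K S g) {t : ℝ} (h0 : 0 ≤ t) (h1 : t < 1) :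
    volume.real {z | g z < 1 ∧ 1 - t ≤ g z} ≤ K * t * volume.real {z | g z < 1} := by
  simpa using h.layer (B := Set.univ) (fun _ _ _ _ => Set.mem_univ _) h0 h1

end Ctx

theorem vol_shift (A : Set (Fin d → ℝ)) (v : Fin d → ℝ) :
    volume.real ((fun z => z + v) ⁻¹' A) = volume.real A := by
  rw [measureReal_def, measure_preimage_add_right, measureReal_def]

theorem vol_half (A : Set (Fin d → ℝ)) (x : Fin d → ℝ) :
    volume ((fun z => (1 / 2 : ℝ) • (z + x)) ⁻¹' A) = ENNReal.ofReal (2 ^ d) * volume A := by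
  have e : (fun z => (1 / 2 : ℝ) • (z + x)) ⁻¹' A =
      (fun z => z + x) ⁻¹' ((fun z => (1 / 2 : ℝ) • z) ⁻¹' A) := rfl
  rw [e, measure_preimage_add_right, Measure.addHaar_preimage_smul _ (by norm_num),
    Module.finrank_fin_fun, one_div, inv_pow, inv_inv, abs_of_pos (by positivity)]

theorem vol_half' (A : Set (Fin d → ℝ)) (x : Fin d → ℝ) :
    volume.real ((fun z => (1 / 2 : ℝ) • (z + x)) ⁻¹' A) = 2 ^ d * volume.real A := by
  rw [measureReal_def, vol_half, ENNReal.toReal_mul, ENNReal.toReal_ofReal (by positivity),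
    measureReal_def]

open Classical in
theorem markov_count {ι : Type*} (T : Finset ι) (A : ι → Set (Fin d → ℝ))
    (hm : ∀ i, MeasurableSet (A i)) (hf : ∀ i, volume (A i) ≠ ⊤) (a : ℝ) :
    a * volume.real {z | a ≤ (T.filter fun i => z ∈ A i).card} ≤ ∑ i ∈ T, volume.real (A i) := by
  have hi : ∀ i ∈ T, Integrable ((A i).indicator fun _ => (1 : ℝ)) := fun i _ =>
    (integrable_indicator_iff (hm i)).2 (integrableOn_const (hf i))
  have h1 := mul_meas_ge_le_integral_of_nonneg (μ := volume)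
    (f := fun z => ∑ i ∈ T, (A i).indicator (fun _ => (1 : ℝ)) z)
    (Filter.Eventually.of_forall fun z => sum_nonneg fun i _ =>
      Set.indicator_nonneg (fun _ _ => zero_le_one) z) (integrable_finsetSum _ hi) a
  rw [integral_finsetSum _ hi] at h1
  simp only [Set.indicator_apply, sum_boole] at h1
  refine h1.trans (le_of_eq (sum_congr rfl fun i _ => ?_))
  simpa [Set.indicator_apply] using integral_indicator_const (μ := volume) (1 : ℝ) (hm i)

end Pool.Agent.Bc94b4.Up
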