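import Mathlib

/-! Points close to more than three quarters of the vertices of a cube are not strictly
antipodal. -/

open Finset

namespace Pool.Agent.Bc94b4.Up

theorem dot_le {d : ℕ} {φ z : Fin d → ℝ} {M ρ : ℝ} (h1 : ∀ i, |φ i| ≤ M) (h2 : ∀ i, |z i| ≤ ρ) :
    |φ ⬝ᵥ z| ≤ d * (M * ρ) := by
  refine (abs_sum_le_sum_abs _ _).trans ?_
  have : ∀ i ∈ (univ : Finset (Fin d)), |φ i * z i| ≤ M * ρ := fun i _ => by
    rw [abs_mul]
    exact mul_le_mul (h1 i) (h2 i) (abs_nonneg _) ((abs_nonneg _).trans (h1 i))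
  simpa using sum_le_card_nsmul _ _ _ this

theorem flip_card {d : ℕ} (T : Finset (Fin d → Bool)) (j : Fin d) :
    2 * T.card ≤ (T.filter fun v => Function.update v j (!v j) ∈ T).card + 2 ^ d := by
  have hinv : Function.Involutive fun v : Fin d → Bool => Function.update v j (!v j) := fun v => by
    simp
  set T' := univ.filter fun v : Fin d → Bool => Function.update v j (!v j) ∈ T with hT'
  have h1 : T'.card = T.card := by
    refine card_bij (fun v _ => Function.update v j (!v j)) (fun v hv => (mem_filter.1 hv).2)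
      (fun v _ w _ h => hinv.injective h) fun w hw => ⟨Function.update w j (!w j), ?_, hinv w⟩
    rw [hT', mem_filter]
    exact ⟨mem_univ _, by simpa using hw⟩
  have h2 : (T.filter fun v => Function.update v j (!v j) ∈ T) = T ∩ T' := by
    ext v; simp [hT']
  have h3 := card_union_add_card_inter T T'
  have h4 : (T ∪ T').card ≤ 2 ^ d := by simpa using card_le_univ (T ∪ T')
  rw [h2]
  omega

theorem rigid {ι : Type*} {d : ℕ} (hd : 2 ≤ d) (S : Finset ι) (y : ι → Fin d → ℝ)
    (b : ι → Fin d → Bool) {τ : ℝ} (hτ : 10 * d * τ < 1)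
    (hy : ∀ x ∈ S, ∀ i, |y x i - if b x i then 1 else 0| ≤ τ) (hb : Set.InjOn b S)
    (hA : ∀ x ∈ S, ∀ x' ∈ S, x ≠ x' → ∃ u : Fin d → ℝ, ∀ z ∈ S,
      (z ≠ x → u ⬝ᵥ y z < u ⬝ᵥ y x) ∧ (z ≠ x' → u ⬝ᵥ y x' < u ⬝ᵥ y z)) :
    4 * S.card ≤ 3 * 2 ^ d := by
  classical
  by_contra hc
  set o : Fin d := ⟨0, by omega⟩ with ho
  set T := S.image b with hT
  have hTc : T.card = S.card := card_image_of_injOn hb
  set J := T.filter fun v => Function.update v o (!v o) ∈ T with hJ
  have hJc := flip_card T o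
  rw [← hJ] at hJc
  have hJT : ∀ v ∈ J, ∀ s : Bool, ∃ x ∈ S, b x = Function.update v o s := fun v hv s => by
    obtain ⟨h1, h2⟩ := mem_filter.1 hv
    by_cases hs : s = v o
    · rw [hs, Function.update_eq_self]; exact mem_image.1 h1
    · rw [Bool.eq_not_iff.2 hs]; exact mem_image.1 h2
  have : Nonempty ι := ⟨(card_pos.1 (show 0 < S.card by omega)).choose⟩
  choose! p hpS hpb using hJT
  have hne : ∀ v ∈ J, p v true ≠ p v false := fun v hv h => by
    have := congrFun ((hpb v hv true).symm.trans (h ▸ hpb v hv false)) o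
    simp at this
  have hδ : ∀ v ∈ J, ∀ i, |(y (p v true) - y (p v false) - Pi.single o 1 : Fin d → ℝ) i| ≤
      2 * τ := fun v hv i => by
    have h1 := abs_le.1 (hy _ (hpS v hv true) i)
    have h2 := abs_le.1 (hy _ (hpS v hv false) i)
    rw [hpb v hv] at h1 h2
    rw [abs_le]
    by_cases hi : i = o
    · subst hi
      simp only [Function.update_self, if_true, Bool.false_eq_true, if_false, Pi.sub_apply,
        Pi.single_eq_same] at h1 h2 ⊢
      constructor <;> linarith [h1.1, h1.2, h2.1, h2.2]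
    · simp only [Function.update_of_ne hi, Pi.sub_apply, Pi.single_eq_of_ne hi] at h1 h2 ⊢
      constructor <;> linarith [h1.1, h1.2, h2.1, h2.2]
  have edge : ∀ m, m ≠ o → ∃ w ∈ J, ∃ w' ∈ J, p w true ≠ p w' true ∧ ∀ (ψ : Fin d → ℝ) (M : ℝ),
      (∀ i, |ψ i| ≤ M) →
        |ψ m| - d * (M * (2 * τ)) ≤ |ψ ⬝ᵥ y (p w' false) - ψ ⬝ᵥ y (p w false)| := fun m hm => by
    have h1 := flip_card J m
    obtain ⟨w, hw⟩ : (J.filter fun v => Function.update v m (!v m) ∈ J).Nonempty :=
      card_pos.1 (by omega)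
    obtain ⟨hw, hw'⟩ := mem_filter.1 hw
    refine ⟨w, hw, _, hw', fun h => ?_, fun ψ M hM => ?_⟩
    · have := congrFun ((hpb w hw true).symm.trans (h ▸ hpb _ hw' true)) m
      simp [Function.update_of_ne hm] at this
    · set σ : ℝ := if w m then -1 else 1 with hσ
      have h2 : ∀ i, |(y (p (Function.update w m (!w m)) false) - y (p w false) -
          Pi.single m σ : Fin d → ℝ) i| ≤ 2 * τ := fun i => by
        have h1 := abs_le.1 (hy _ (hpS _ hw' false) i)
        have h2 := abs_le.1 (hy _ (hpS w hw false) i)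
        rw [hpb _ hw'] at h1
        rw [hpb w hw] at h2
        rw [abs_le]
        by_cases hi : i = m
        · subst hi
          simp only [Function.update_of_ne hm, Function.update_self, Pi.sub_apply,
            Pi.single_eq_same, hσ] at h1 h2 ⊢
          cases hw : w i <;> simp only [hw, Bool.not_true, Bool.not_false, if_true,
            Bool.false_eq_true, if_false] at h1 h2 ⊢ <;>
            constructor <;> linarith [h1.1, h1.2, h2.1, h2.2]
        · have e : Function.update (Function.update w m (!w m)) o false i =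
              Function.update w o false i := by
            by_cases hio : i = o
            · rw [hio, Function.update_self, Function.update_self]
            · simp only [Function.update_of_ne hio, Function.update_of_ne hi]
          rw [e] at h1
          simp only [Pi.sub_apply, Pi.single_eq_of_ne hi]
          constructor <;> linarith [h1.1, h1.2, h2.1, h2.2]
      have h3 := dot_le hM h2
      rw [dotProduct_sub, dotProduct_sub, dotProduct_single] at h3
      have h4 : |ψ m * σ| = |ψ m| := by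
        rw [abs_mul, hσ]; split_ifs <;> simp
      have h5 := abs_sub_abs_le_abs_sub (ψ m * σ)
        (ψ ⬝ᵥ y (p (Function.update w m (!w m)) false) - ψ ⬝ᵥ y (p w false))
      rw [abs_sub_comm (ψ m * σ)] at h5
      linarith
  have hψ : ∀ v ∈ J, ∃ ψ : Fin d → ℝ, ψ o = 1 ∧ ∀ z ∈ S,
      (z ≠ p v true → ψ ⬝ᵥ y z < ψ ⬝ᵥ y (p v true)) ∧ ψ ⬝ᵥ y (p v false) ≤ ψ ⬝ᵥ y z := by
    intro v hv
    obtain ⟨u, hu⟩ := hA _ (hpS v hv true) _ (hpS v hv false) (hne v hv)
    have hlo : ∀ z ∈ S, u ⬝ᵥ y (p v false) ≤ u ⬝ᵥ y z := fun z hz => by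
      by_cases h : z = p v false
      · rw [h]
      · exact ((hu z hz).2 h).le
    have hhi : ∀ z ∈ S, u ⬝ᵥ y z ≤ u ⬝ᵥ y (p v true) := fun z hz => by
      by_cases h : z = p v true
      · rw [h]
      · exact ((hu z hz).1 h).le
    have : Nonempty (Fin d) := ⟨o⟩
    obtain ⟨m, hm⟩ := Finite.exists_max fun i => |u i|
    have h1 := abs_le.1 (dot_le hm (hδ v hv))
    rw [dotProduct_sub, dotProduct_sub, dotProduct_single, mul_one] at h1
    have h2 := (hu _ (hpS v hv true)).2 (hne v hv)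
    have h3 := le_abs_self (u o)
    have h4 := hm o
    have hM : 0 < |u m| := by
      by_contra h
      have h0 : |u m| = 0 := le_antisymm (not_lt.1 h) (abs_nonneg _)
      rw [h0] at h1 h4
      linarith [h1.2]
    have h5 : d * (|u m| * (2 * τ)) < |u m| / 5 := by nlinarith
    have hpos : 0 < u o := by
      by_cases hmo : m = o
      · rw [hmo] at h5 h1 hM
        rcases abs_cases (u o) with h | h
        · linarith [h.1]
        · linarith [h.1, h1.2]
      · obtain ⟨w, hw, w', hw', -, h6⟩ := edge m hmo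
        have h7 := h6 u _ hm
        have h8 : |u ⬝ᵥ y (p w' false) - u ⬝ᵥ y (p w false)| ≤
            u ⬝ᵥ y (p v true) - u ⬝ᵥ y (p v false) := by
          rw [abs_le]
          constructor <;> linarith [hlo _ (hpS w hw false), hlo _ (hpS w' hw' false),
            hhi _ (hpS w hw false), hhi _ (hpS w' hw' false)]
        linarith [h1.2]
    refine ⟨(u o)⁻¹ • u, by simp [hpos.ne'], fun z hz => ⟨fun h => ?_, ?_⟩⟩
    · simp only [smul_dotProduct, smul_eq_mul]
      exact mul_lt_mul_of_pos_left ((hu z hz).1 h) (inv_pos.2 hpos)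
    · simp only [smul_dotProduct, smul_eq_mul]
      exact mul_le_mul_of_nonneg_left (hlo z hz) (inv_pos.2 hpos).le
  choose! ψ hψo hψ using hψ
  have hhi : ∀ v ∈ J, ∀ z ∈ S, ψ v ⬝ᵥ y z ≤ ψ v ⬝ᵥ y (p v true) := fun v hv z hz => by
    by_cases h : z = p v true
    · rw [h]
    · exact ((hψ v hv z hz).1 h).le
  obtain ⟨w₀, hw₀, w₁, hw₁, hw, -⟩ := edge ⟨1, by omega⟩ (by simp [ho])
  obtain ⟨⟨⟨v, l⟩, m⟩, hmem, hmax⟩ := exists_max_image ((J ×ˢ J) ×ˢ (univ : Finset (Fin d)))
    (fun q => |ψ q.1.1 q.2 - ψ q.1.2 q.2|) ⟨⟨⟨w₀, w₀⟩, o⟩, by simp [hw₀]⟩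
  have hv : v ∈ J := (mem_product.1 (mem_product.1 hmem).1).1
  have hl : l ∈ J := (mem_product.1 (mem_product.1 hmem).1).2
  set η := |ψ v m - ψ l m| with hη
  have hmax' : ∀ i ∈ J, ∀ j ∈ J, ∀ k, |(ψ i - ψ j) k| ≤ η := fun i hi j hj k =>
    hmax ⟨⟨i, j⟩, k⟩ (by simp [hi, hj])
  have hη0 : 0 < η := by
    by_contra h
    have e : ψ w₀ = ψ w₁ := funext fun k =>
      sub_eq_zero.1 (abs_nonpos_iff.1 ((hmax' _ hw₀ _ hw₁ k).trans (not_lt.1 h)))
    have h1 := (hψ _ hw₀ _ (hpS _ hw₁ true)).1 hw.symm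
    have h2 := hhi _ hw₁ _ (hpS _ hw₀ true)
    rw [e] at h1
    linarith
  have hmo : m ≠ o := fun h => by
    rw [hη, h, hψo v hv, hψo l hl] at hη0
    simp at hη0
  have key : ∀ i ∈ J, ∀ j ∈ J, ψ i ⬝ᵥ y (p j false) - ψ i ⬝ᵥ y (p i false) ≤
      2 * (d * (η * (2 * τ))) := fun i hi j hj => by
    have h1 := abs_le.1 (dot_le (hmax' i hi j hj) (hδ i hi))
    have h2 := abs_le.1 (dot_le (hmax' i hi j hj) (hδ j hj))
    simp only [dotProduct_sub, sub_dotProduct, dotProduct_single] at h1 h2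
    linarith [h1.2, h2.1, hhi i hi _ (hpS j hj true), hhi j hj _ (hpS i hi true),
      (hψ j hj _ (hpS i hi false)).2]
  obtain ⟨w, hw, w', hw', -, h6⟩ := edge m hmo
  have h7 := h6 _ _ (hmax' v hv l hl)
  have h8 : |(ψ v - ψ l) ⬝ᵥ y (p w' false) - (ψ v - ψ l) ⬝ᵥ y (p w false)| ≤
      4 * (d * (η * (2 * τ))) := by
    simp only [sub_dotProduct]
    rw [abs_le]
    constructor <;> linarith [key v hv w hw, key v hv w' hw', key l hl w hw, key l hl w' hw',
      (hψ v hv _ (hpS w hw false)).2, (hψ v hv _ (hpS w' hw' false)).2,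
      (hψ l hl _ (hpS w hw false)).2, (hψ l hl _ (hpS w' hw' false)).2]
  have h9 : |(ψ v - ψ l) m| = η := rfl
  rw [h9] at h7
  nlinarith

end Pool.Agent.Bc94b4.Up
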